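import Mathlib
import Pool.Agent.N139.FG.Stm

/-!
Project FG (helper139), CHAR: only finitely many characters of a C*-stable group vanish on a suitable
finite set (helper667).
-/

set_option autoImplicit false

namespace Pool.Agent.N667.FGC

open N139.FG TopologicalSpace Topology unitInterval

section

variable (G : Type) [Group G]

/-- the characters -/
abbrev X : Type := {x : G → Circle // ∀ g h, x (g * h) = x g * x h}

theorem X_closed : IsClosed {x : G → Circle | ∀ g h, x (g * h) = x g * x h} := by
  have : {x : G → Circle | ∀ g h, x (g * h) = x g * x h} =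
      ⋂ g : G, ⋂ h : G, {x : G → Circle | x (g * h) = x g * x h} := by
    ext x
    simp
  rw [this]
  refine isClosed_iInter fun g => isClosed_iInter fun h => ?_
  exact isClosed_eq (continuous_apply _) ((continuous_apply g).mul (continuous_apply h))

instance : CompactSpace (X G) := isCompact_iff_compactSpace.1 (X_closed G).isCompact

variable {G}

theorem X_one (x : X G) : x.1 1 = 1 := by
  have h := x.2 1 1
  rw [mul_one] at h
  exact mul_eq_left.1 h.symm

theorem X_inv (x : X G) (g : G) : x.1 g⁻¹ = (x.1 g)⁻¹ := by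
  have h := x.2 g g⁻¹
  rw [mul_inv_cancel, X_one] at h
  exact (inv_eq_of_mul_eq_one_right h.symm).symm

/-- the trivial character -/
noncomputable def triv : X G := ⟨fun _ => 1, fun _ _ => (mul_one 1).symm⟩

theorem cont_coord (g : G) : Continuous fun x : X G => x.1 g :=
  (continuous_apply g).comp continuous_subtype_val

theorem cont_coe : Continuous fun z : Circle => (z : ℂ) := continuous_subtype_val

/-- the values -/
noncomputable def uu (g : G) : C(X G, ℂ) := ⟨fun x => (x.1 g : ℂ), cont_coe.comp (cont_coord g)⟩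

theorem uu_mul (g h : G) : uu (g * h) = uu g * uu h := by
  ext x
  show ((x.1 (g * h) : Circle) : ℂ) = (x.1 g : ℂ) * (x.1 h : ℂ)
  rw [x.2 g h, Circle.coe_mul]

theorem uu_star (g : G) : uu g⁻¹ = star (uu g) := by
  ext x
  show ((x.1 g⁻¹ : Circle) : ℂ) = star (x.1 g : ℂ)
  rw [X_inv, Circle.coe_inv_eq_conj]
  rfl

/-- functions of the first coordinates -/
noncomputable def Dn (e : ℕ → G) (n : ℕ) : StarSubalgebra ℂ C(X G, ℂ) where
  carrier := {f | ∀ x y : X G, (∀ i ≤ n, x.1 (e i) = y.1 (e i)) → f x = f y}
  mul_mem' := fun {a b} ha hb x y h => by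
    show a x * b x = a y * b y
    rw [ha x y h, hb x y h]
  add_mem' := fun {a b} ha hb x y h => by
    show a x + b x = a y + b y
    rw [ha x y h, hb x y h]
  algebraMap_mem' := fun c x y h => rfl
  star_mem' := fun {a} ha x y h => by
    show star (a x) = star (a y)
    rw [ha x y h]

theorem mem_Dn {e : ℕ → G} {n : ℕ} {f : C(X G, ℂ)} :
    f ∈ Dn e n ↔ ∀ x y : X G, (∀ i ≤ n, x.1 (e i) = y.1 (e i)) → f x = f y := Iff.rfl

theorem Dn_closed (e : ℕ → G) (n : ℕ) : IsClosed (Dn e n : Set C(X G, ℂ)) := by
  have : (Dn e n : Set C(X G, ℂ)) = ⋂ x : X G, ⋂ y : X G, ⋂ _ : ∀ i ≤ n, x.1 (e i) = y.1 (e i),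
      {f : C(X G, ℂ) | f x = f y} := by
    ext f
    simp only [SetLike.mem_coe, mem_Dn, Set.mem_iInter, Set.mem_setOf_eq]
  rw [this]
  refine isClosed_iInter fun x => isClosed_iInter fun y => isClosed_iInter fun _ => ?_
  exact isClosed_eq (continuous_eval_const x) (continuous_eval_const y)

theorem Dn_mono (e : ℕ → G) : Monotone (Dn e) := fun _ _ hnm _ hf x y h =>
  hf x y fun i hi => h i (hi.trans hnm)

/-- the characters which are trivial at the first coordinates -/
abbrev K (e : ℕ → G) (n : ℕ) : Type := {x : X G // ∀ i ≤ n, x.1 (e i) = 1}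

theorem K_closed (e : ℕ → G) (n : ℕ) : IsClosed {x : X G | ∀ i ≤ n, x.1 (e i) = 1} := by
  have : {x : X G | ∀ i ≤ n, x.1 (e i) = 1} = ⋂ i : ℕ, ⋂ _ : i ≤ n, {x : X G | x.1 (e i) = 1} := by
    ext x
    simp
  rw [this]
  refine isClosed_iInter fun i => isClosed_iInter fun _ => ?_
  exact isClosed_eq (cont_coord _) continuous_const

instance (e : ℕ → G) (n : ℕ) : CompactSpace (K e n) :=
  isCompact_iff_compactSpace.1 (K_closed e n).isCompact

/-- the trivial character -/
noncomputable def kt (e : ℕ → G) (n : ℕ) : K e n := ⟨triv, fun _ _ => rfl⟩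

/-- the end: a family of logarithms of the characters in `K` -/
theorem fin_of_L {e : ℕ → G} {n : ℕ} (L : G → K e n → ℝ) (hc : ∀ g, Continuous (L g))
    (he : ∀ g x, Circle.exp (L g x) = x.1.1 g) (hm : ∀ g h x, L (g * h) x = L g x + L h x)
    (h1 : ∀ g, L g (kt e n) = 0) : Finite (K e n) := by
  -- the key: small logarithms vanish
  have key : ∀ x : K e n, (∀ i ≤ n, L (e i) x = 0) → x = kt e n := by
    intro x hx
    -- the one parameter group through `x`
    let xs : ℝ → K e n := fun s => ⟨⟨fun g => Circle.exp (s * L g x), fun g h => by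
      show Circle.exp (s * L (g * h) x) = Circle.exp (s * L g x) * Circle.exp (s * L h x)
      rw [hm, mul_add, Circle.exp_add]⟩, fun i hi => by
        show Circle.exp (s * L (e i) x) = 1
        rw [hx i hi, mul_zero, Circle.exp_zero]⟩
    have hxs : Continuous xs := by
      refine Continuous.subtype_mk (Continuous.subtype_mk (continuous_pi fun g => ?_) _) _
      exact Circle.exp.continuous.comp (continuous_id.mul continuous_const)
    have hxs0 : xs 0 = kt e n := by
      apply Subtype.ext
      apply Subtype.ext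
      funext g
      show Circle.exp (0 * L g x) = 1
      rw [zero_mul, Circle.exp_zero]
    have hL : ∀ g, (fun s : ℝ => L g (xs s)) = fun s : ℝ => s * L g x := by
      intro g
      refine Circle.isCoveringMap_exp.eq_of_comp_eq ((hc g).comp hxs)
        (continuous_id.mul continuous_const) ?_ 0 ?_
      · funext s
        show Circle.exp (L g (xs s)) = Circle.exp (s * L g x)
        rw [he]
      · show L g (xs 0) = 0 * L g x
        rw [hxs0, h1, zero_mul]
    have h0 : ∀ g, L g x = 0 := by
      intro g
      obtain ⟨C, hC⟩ : ∃ C : ℝ, ∀ y, |L g y| ≤ C := by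
        obtain ⟨C, hC⟩ := isCompact_univ.exists_bound_of_continuousOn (hc g).continuousOn
        exact ⟨C, fun y => hC y (Set.mem_univ y)⟩
      by_contra h
      have h2 : 0 < |L g x| := abs_pos.2 h
      have h3 : L g (xs ((C + 1) / |L g x|)) = ((C + 1) / |L g x|) * L g x := congrFun (hL g) _
      have h4 := hC (xs ((C + 1) / |L g x|))
      have hC0 : 0 ≤ C := (abs_nonneg _).trans (hC x)
      rw [h3, abs_mul, abs_div, abs_abs, abs_of_nonneg (by linarith : (0:ℝ) ≤ C + 1),
        div_mul_cancel₀ _ h2.ne'] at h4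
      linarith
    apply Subtype.ext
    apply Subtype.ext
    funext g
    rw [← he g x, h0 g, Circle.exp_zero]
    rfl
  -- `1` is isolated
  have hopen : IsOpen ({kt e n} : Set (K e n)) := by
    have : ({kt e n} : Set (K e n)) = ⋂ i ∈ Finset.range (n + 1), {x : K e n | |L (e i) x| < 1} := by
      ext x
      simp only [Set.mem_singleton_iff, Set.mem_iInter, Set.mem_setOf_eq, Finset.mem_range]
      constructor
      · rintro rfl i _
        rw [h1, abs_zero]
        exact one_pos
      · intro h
        apply key x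
        intro i hi
        have h2 := h i (by omega)
        have h3 : Circle.exp (L (e i) x) = 1 := by rw [he]; exact x.2 i hi
        obtain ⟨m, hm'⟩ := Circle.exp_eq_one.1 h3
        rw [hm'] at h2 ⊢
        have h4 : m = 0 := by
          by_contra h5
          have h6 : (1 : ℝ) ≤ |(m : ℝ)| := by
            have := Int.one_le_abs h5
            exact_mod_cast this
          rw [abs_mul, abs_of_pos Real.two_pi_pos] at h2
          have h7 := Real.pi_gt_three
          nlinarith
        rw [h4]
        simp
    rw [this]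
    refine isOpen_biInter_finset fun i _ => ?_
    exact isOpen_lt (hc (e i)).abs continuous_const
  -- translations
  have hdisc : DiscreteTopology (K e n) := by
    rw [discreteTopology_iff_isOpen_singleton]
    intro y
    let T : K e n → K e n := fun x => ⟨⟨fun g => x.1.1 g * (y.1.1 g)⁻¹, fun g h => by
      show x.1.1 (g * h) * (y.1.1 (g * h))⁻¹ = x.1.1 g * (y.1.1 g)⁻¹ * (x.1.1 h * (y.1.1 h)⁻¹)
      rw [x.1.2, y.1.2, mul_inv]
      exact mul_mul_mul_comm _ _ _ _⟩, fun i hi => by
        show x.1.1 (e i) * (y.1.1 (e i))⁻¹ = 1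
        rw [x.2 i hi, y.2 i hi, inv_one, mul_one]⟩
    have hT : Continuous T := by
      refine Continuous.subtype_mk (Continuous.subtype_mk (continuous_pi fun g => ?_) _) _
      exact ((cont_coord g).comp continuous_subtype_val).mul continuous_const
    have : ({y} : Set (K e n)) = T ⁻¹' {kt e n} := by
      ext x
      simp only [Set.mem_singleton_iff, Set.mem_preimage]
      constructor
      · rintro rfl
        apply Subtype.ext
        apply Subtype.ext
        funext g
        show x.1.1 g * (x.1.1 g)⁻¹ = 1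
        rw [mul_inv_cancel]
      · intro h
        apply Subtype.ext
        apply Subtype.ext
        funext g
        have h2 := congrFun (congrArg (fun z : K e n => z.1.1) h) g
        have h3 : x.1.1 g * (y.1.1 g)⁻¹ = 1 := h2
        exact mul_inv_eq_one.1 h3
    rw [this]
    exact hopen.preimage hT
  exact finite_of_compact_of_discrete

/-- the logarithms -/
theorem exists_L {e : ℕ → G} {n : ℕ} (c : G → C(I × X G, Circle))
    (hm : ∀ g h z, c (g * h) z = c g z * c h z) (h0 : ∀ g x, c g (0, x) = x.1 g)
    (h1 : ∀ g (x y : X G), (∀ i ≤ n, x.1 (e i) = y.1 (e i)) → c g (1, x) = c g (1, y)) :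
    Finite (K e n) := by
  let H : G → C(I × K e n, Circle) := fun g =>
    ⟨fun z => c g (σ z.1, z.2.1) * (c g (σ z.1, triv))⁻¹, by
      have h2 : Continuous fun z : I × K e n => (σ z.1, z.2.1) := by fun_prop
      have h3 : Continuous fun z : I × K e n => (σ z.1, (triv : X G)) := by fun_prop
      exact ((c g).continuous.comp h2).mul ((c g).continuous.comp h3).inv⟩
  have hH : ∀ g z, H g z = c g (σ z.1, z.2.1) * (c g (σ z.1, triv))⁻¹ := fun _ _ => rfl
  have hH0 : ∀ g (a : K e n), H g (0, a) = Circle.exp ((0 : C(K e n, ℝ)) a) := by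
    intro g a
    rw [hH, ContinuousMap.zero_apply, Circle.exp_zero]
    show c g (σ 0, a.1) * (c g (σ 0, triv))⁻¹ = 1
    rw [unitInterval.symm_zero, h1 g a.1 triv (fun i hi => a.2 i hi), mul_inv_cancel]
  let l : G → C(I × K e n, ℝ) := fun g => Circle.isCoveringMap_exp.liftHomotopy (H g) 0 (hH0 g)
  have hl : ∀ g z, Circle.exp (l g z) = H g z := fun g z =>
    congrFun (Circle.isCoveringMap_exp.liftHomotopy_lifts (H g) 0 (hH0 g)) z
  have hl0 : ∀ g a, l g (0, a) = 0 := fun g a =>
    Circle.isCoveringMap_exp.liftHomotopy_zero (H g) 0 (hH0 g) a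
  have hcs : ∀ (f : C(I × K e n, ℝ)) (a : K e n), Continuous fun s : I => f (s, a) := fun f a =>
    f.continuous.comp (Continuous.prodMk_left a)
  refine fin_of_L (fun g x => l g (1, x)) (fun g => (l g).continuous.comp (Continuous.prodMk_right 1))
    (fun g x => ?_) (fun g h x => ?_) (fun g => ?_)
  · show Circle.exp (l g (1, x)) = x.1.1 g
    rw [hl, hH]
    show c g (σ 1, x.1) * (c g (σ 1, triv))⁻¹ = x.1.1 g
    rw [unitInterval.symm_one, h0, h0]
    show x.1.1 g * (1 : Circle)⁻¹ = x.1.1 g
    rw [inv_one, mul_one]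
  · have h2 : (fun s : I => l (g * h) (s, x)) = fun s : I => l g (s, x) + l h (s, x) := by
      refine Circle.isCoveringMap_exp.eq_of_comp_eq (hcs _ _) ((hcs _ _).add (hcs _ _)) ?_ 0 ?_
      · funext s
        show Circle.exp (l (g * h) (s, x)) = Circle.exp (l g (s, x) + l h (s, x))
        rw [Circle.exp_add, hl, hl, hl, hH, hH, hH, hm, hm, mul_inv]
        exact mul_mul_mul_comm _ _ _ _
      · show l (g * h) (0, x) = l g (0, x) + l h (0, x)
        rw [hl0, hl0, hl0, add_zero]
    exact congrFun h2 1
  · have h2 : (fun s : I => l g (s, kt e n)) = fun _ : I => (0 : ℝ) := by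
      refine Circle.isCoveringMap_exp.eq_of_comp_eq (hcs _ _) continuous_const ?_ 0 ?_
      · funext s
        show Circle.exp (l g (s, kt e n)) = Circle.exp 0
        rw [hl, hH, Circle.exp_zero]
        exact mul_inv_cancel _
      · exact hl0 g _
    exact congrFun h2 1

/-- from the telescope lemma to circle valued functions -/
theorem exists_c {e : ℕ → G} {n : ℕ} (w : G → C(I, C(X G, ℂ)))
    (hm : ∀ g h t, w (g * h) t = w g t * w h t) (hs : ∀ g t, w g⁻¹ t = star (w g t))
    (h0 : ∀ g, w g 0 = uu g) (h1 : ∀ g, w g 1 ∈ Dn e n) : Finite (K e n) := by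
  have hcont : ∀ g, Continuous fun z : I × X G => w g z.1 z.2 := fun g =>
    ContinuousMap.continuous_uncurry_of_continuous (w g)
  have hone : ∀ (x : X G) (t : I), w 1 t x = 1 := by
    intro x t
    have hi : ∀ t : I, w 1 t x = 0 ∨ w 1 t x = 1 := by
      intro t
      have h2 := congrArg (fun f : C(X G, ℂ) => f x) (hm 1 1 t)
      rw [mul_one] at h2
      have h3 : w 1 t x = w 1 t x * w 1 t x := h2
      by_cases h4 : w 1 t x = 0
      · exact Or.inl h4
      · right
        exact (mul_eq_left₀ h4).1 h3.symm
    have h5 : w 1 t x = w 1 0 x := by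
      refine isPreconnected_univ.constant_of_mapsTo (T := ({0, 1} : Set ℂ)) ?_
        (f := fun t : I => w 1 t x) ?_ ?_ (Set.mem_univ _) (Set.mem_univ _)
      · exact (Set.toFinite _).isDiscrete
      · exact ((hcont 1).comp (Continuous.prodMk_left x)).continuousOn
      · intro t _
        rcases hi t with h6 | h6
        · left; exact h6
        · right; exact h6
    rw [h5, h0]
    show ((x.1 1 : Circle) : ℂ) = 1
    rw [X_one, Circle.coe_one]
  have hnorm : ∀ g t (x : X G), ‖w g t x‖ = 1 := by
    intro g t x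
    have h2 : w g t x * star (w g t x) = 1 := by
      have h3 := congrArg (fun f : C(X G, ℂ) => f x) (hm g g⁻¹ t)
      rw [mul_inv_cancel, hs] at h3
      rw [← hone x t]
      exact h3.symm
    have h4 : ‖w g t x‖ * ‖w g t x‖ = 1 := by
      have := congrArg norm h2
      rwa [norm_mul, norm_star, norm_one] at this
    nlinarith [norm_nonneg (w g t x), mul_self_nonneg (‖w g t x‖ - 1)]
  refine exists_L (e := e) (n := n)
    (fun g => ⟨fun z => ⟨w g z.1 z.2, mem_sphere_zero_iff_norm.2 (hnorm g z.1 z.2)⟩,
      Continuous.subtype_mk (hcont g) _⟩) ?_ ?_ ?_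
  · intro g h z
    apply Circle.ext
    show w (g * h) z.1 z.2 = w g z.1 z.2 * w h z.1 z.2
    rw [hm]
    rfl
  · intro g x
    apply Circle.ext
    show w g 0 x = (x.1 g : ℂ)
    rw [h0]
    rfl
  · intro g x y hxy
    apply Circle.ext
    show w g 1 x = w g 1 y
    exact h1 g x y hxy

end

theorem t_CHAR (hTEL : S_TEL) : S_CHAR := by
  intro G _ _ hst
  classical
  obtain ⟨e, he⟩ := exists_surjective_nat G
  have : SecondCountableTopology Circle := (Topology.IsEmbedding.subtypeVal :
    Topology.IsEmbedding (fun z : Circle => (z : ℂ))).secondCountableTopology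
  have : SecondCountableTopology (G → Circle) := inferInstance
  have : SecondCountableTopology (X G) := (Topology.IsEmbedding.subtypeVal :
    Topology.IsEmbedding (fun x : X G => x.1)).secondCountableTopology
  have : SecondCountableTopology C(X G, ℂ) := inferInstance
  obtain ⟨n, w, hm, hs, h0, h1⟩ := hTEL G hst C(X G, ℂ) (Dn e) (Dn_closed e) (Dn_mono e) uu
    uu_mul uu_star (fun g => by
      obtain ⟨k, rfl⟩ := he g
      exact ⟨k, fun x y h => by
        show ((x.1 (e k) : Circle) : ℂ) = ((y.1 (e k) : Circle) : ℂ)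
        rw [h k le_rfl]⟩)
  have hfin := exists_c w hm hs h0 h1
  refine ⟨(Finset.range (n + 1)).image e, ?_⟩
  rw [← Set.finite_coe_iff]
  refine Finite.of_injective (β := K e n) (fun χ => ⟨⟨fun g => χ.1 g, fun g h => map_mul _ _ _⟩,
    fun i hi => χ.2 (e i) (Finset.mem_image_of_mem e (Finset.mem_range.2 (by omega)))⟩) ?_
  intro χ χ' h
  apply Subtype.ext
  apply MonoidHom.ext
  intro g
  exact congrFun (congrArg (fun z : K e n => z.1.1) h) g

end Pool.Agent.N667.FGC
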