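import Pool.Agent.N928.FG.Stm

/-!
Project FG, S1: the lazy walk on `ℤ`: positivity, symmetry, unimodality (helper667).
-/

set_option autoImplicit false

namespace Pool.Agent.N667.FG

open Pool.Agent.N928.FG

theorem s_main {β : ℝ} (hb : 0 < β) (hb' : β ≤ 1 / 2) (n : ℕ) :
    (∀ k, 0 ≤ s β n k) ∧ (∀ k, s β n (-k) = s β n k) ∧
      ∀ k : ℤ, 0 ≤ k → s β n (k + 1) ≤ s β n k := by
  induction n with
  | zero =>
    refine ⟨fun k => ?_, fun k => ?_, fun k hk => ?_⟩
    · simp only [s]
      split_ifs <;> norm_num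
    · simp only [s, neg_eq_zero]
    · simp only [s]
      rw [if_neg (by omega)]
      split_ifs <;> norm_num
  | succ n ih =>
    obtain ⟨h0, h1, h2⟩ := ih
    refine ⟨fun k => ?_, fun k => ?_, fun k hk => ?_⟩
    · simp only [s]
      have ha := h0 k
      have hb1 := h0 (k - 1)
      have hc := h0 (k + 1)
      have h3 : 0 ≤ (1 - β) * s β n k := mul_nonneg (by linarith) ha
      have h4 : 0 ≤ β / 2 * (s β n (k - 1) + s β n (k + 1)) := mul_nonneg (by linarith) (by linarith)
      linarith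
    · simp only [s]
      have e1 : -k - 1 = -(k + 1) := by ring
      have e2 : -k + 1 = -(k - 1) := by ring
      rw [e1, e2, h1, h1, h1]
      ring
    · simp only [s]
      have e0 : k + 1 - 1 = k := by ring
      rw [e0]
      rcases hk.eq_or_lt with hk0 | hk0
      · subst hk0
        have e1 : s β n (0 - 1) = s β n (0 + 1) := by
          rw [show (0 : ℤ) - 1 = -(0 + 1) by ring, h1]
        rw [e1]
        have a1 := h2 0 le_rfl
        have a2 := h2 (0 + 1) (by norm_num)
        nlinarith [mul_nonneg (show (0:ℝ) ≤ 1 - 3 / 2 * β by linarith) (sub_nonneg.2 a1),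
          mul_nonneg (show (0:ℝ) ≤ β / 2 by linarith) (sub_nonneg.2 a2)]
      · have a0 := h2 (k - 1) (by omega)
        rw [sub_add_cancel] at a0
        have a1 := h2 k hk
        have a2 := h2 (k + 1) (by omega)
        nlinarith [mul_nonneg (show (0:ℝ) ≤ 1 - β by linarith) (sub_nonneg.2 a1),
          mul_nonneg (show (0:ℝ) ≤ β / 2 by linarith) (sub_nonneg.2 a2),
          mul_nonneg (show (0:ℝ) ≤ β / 2 by linarith) (sub_nonneg.2 a0)]

theorem s_le_nat {β : ℝ} (hb : 0 < β) (hb' : β ≤ 1 / 2) (n k : ℕ) :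
    s β n (k : ℤ) ≤ s β n 0 := by
  induction k with
  | zero => exact le_rfl
  | succ k ih =>
    have := (s_main hb hb' n).2.2 (k : ℤ) (by positivity)
    push_cast
    exact this.trans ih

theorem s_le {β : ℝ} (hb : 0 < β) (hb' : β ≤ 1 / 2) (n : ℕ) (k : ℤ) :
    s β n k ≤ s β n 0 := by
  obtain ⟨j, rfl | rfl⟩ := Int.eq_nat_or_neg k
  · exact s_le_nat hb hb' n j
  · rw [(s_main hb hb' n).2.1]
    exact s_le_nat hb hb' n j

theorem s_le_one {β : ℝ} (hb : 0 < β) (hb' : β ≤ 1 / 2) (n : ℕ) : s β n 0 ≤ 1 := by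
  induction n with
  | zero => simp [s]
  | succ n ih =>
    simp only [s]
    have h1 := s_le hb hb' n (0 - 1)
    have h2 := s_le hb hb' n (0 + 1)
    nlinarith [mul_nonneg (show (0:ℝ) ≤ β / 2 by linarith) (sub_nonneg.2 h1),
      mul_nonneg (show (0:ℝ) ≤ β / 2 by linarith) (sub_nonneg.2 h2)]

theorem t_S1 : S_S1 := fun _ hb hb' n k =>
  ⟨(s_main hb hb' n).1 k, (s_main hb hb' n).2.1 k, s_le hb hb' n k, s_le_one hb hb' n⟩

end Pool.Agent.N667.FG
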